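import Pool.Agent.BCX.NilQ

/-!
# Strongly scale-invariant groups and the kernels on the nilpotent quotients
-/

namespace Pool.Agent.Results.MP_b811c3_gt.NilpotentQuotients

theorem result {Q : Type} [Group Q] [Group.FG Q] (φ : Q →* Q)
    (hinj : Function.Injective φ) (hfin : φ.range.FiniteIndex)
    (hcap : ∀ q : Q, (∀ k : ℕ, q ∈ Set.range (φ^[k])) → q = 1) (c : ℕ) (hc : 1 ≤ c) :
    List.TFAE [
      -- `Q` is virtually nilpotent of class at most `c`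
      ∃ N : Subgroup Q, N.FiniteIndex ∧ N.lowerCentralSeries c = ⊥,
      -- `φ` is injective on `X / γ_{c+1}(X)` for all small normal invariant `X`
      ∃ Q₀ : Subgroup Q, Q₀.FiniteIndex ∧ ∀ X : Subgroup Q, X.Normal → X.FiniteIndex → X ≤ Q₀ →
        (∀ x ∈ X, φ x ∈ X) → ∀ x ∈ X, φ x ∈ X.lowerCentralSeries c →
          x ∈ X.lowerCentralSeries c,
      -- the kernel on `X / γ_{c+1}(X)` consists of elements of order prime to the index of `φ(Q)`
      ∃ Q₀ : Subgroup Q, Q₀.FiniteIndex ∧ ∀ X : Subgroup Q, X.Normal → X.FiniteIndex → X ≤ Q₀ →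
        (∀ x ∈ X, φ x ∈ X) → ∀ x ∈ X, φ x ∈ X.lowerCentralSeries c →
          ∃ k : ℕ, k.Coprime φ.range.index ∧ x ^ k ∈ X.lowerCentralSeries c,
      -- the kernel on `X / γ_{c+1}(X)` is contained in the images of all iterates
      ∃ Q₀ : Subgroup Q, Q₀.FiniteIndex ∧ ∀ X : Subgroup Q, X.Normal → X.FiniteIndex → X ≤ Q₀ →
        (∀ x ∈ X, φ x ∈ X) → ∀ x ∈ X, φ x ∈ X.lowerCentralSeries c →
          ∀ j : ℕ, ∃ y ∈ X, ((φ^[j]) y)⁻¹ * x ∈ X.lowerCentralSeries c,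
      -- the kernels of all iterates on `X / γ_{c+1}(X)` have at most `B` elements
      ∃ (B : ℕ) (Q₀ : Subgroup Q), Q₀.FiniteIndex ∧ ∀ X : Subgroup Q, X.Normal →
        X.FiniteIndex → X ≤ Q₀ → (∀ x ∈ X, φ x ∈ X) → ∀ (k : ℕ) (f : Fin (B + 1) → Q),
          (∀ i, f i ∈ X ∧ (φ^[k]) (f i) ∈ X.lowerCentralSeries c) →
            ∃ i j, i ≠ j ∧ (f i)⁻¹ * f j ∈ X.lowerCentralSeries c] :=
  BCX.INJ.tfaeN φ hinj hfin hcap c hc

end Pool.Agent.Results.MP_b811c3_gt.NilpotentQuotients
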